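import Pool.Agent.Run7.h431.T3.BLD
import Pool.Agent.Run7.h950.T3.DET
import Pool.Agent.Run7.h390.BD.Rg

/-!
# Project T3 (helper909), piece FINAL: `GL_3` of polynomial rings

Piece of helper579, after `GT/Rng.lean` (the case of `GL_2`) of helper909.
-/

set_option autoImplicit false

namespace Run7.h579.T3

open SimpleGraph Run7.h909.TD Run7.h909.T3 Run7.h909.GT Run7.h909.NC
open Pool.Agent.Y110.FJ (ClosedE)
open Pool.Agent.Run7.h390.BD (isDom frac_deg)

/-- the conclusion of MAIN2 for the class `C` -/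
def Tri2 (C : ∀ (G : Type) [Group G], Prop) : Prop :=
  ∀ (G V : Type) [Group G] [MulAction G V] (T : SimpleGraph V) (F : Set (ℤ → V))
    (τ : V → ZMod 3), Tri T F → SC T F → Ac G T F → (∀ (g : G) (x : V), τ (g • x) = τ x) →
    (∀ x y, T.Adj x y → τ x ≠ τ y) →
    (∀ x : V, ∃ (P : Type) (_ : Group P) (f : G →* P), C P ∧
      ∀ g : G, g • x = x → f g = 1 → g = 1) → C G

variable {C : ∀ (G : Type) [Group G], Prop}

/-- **`GL_3` of rings with a nonnegative degree function** -/
theorem ring_mem3 (hC : ClosedE C) (hsol : ∀ (S : Type) [Group S], Group.IsSolvable S → C S)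
    (hM : Tri2 C) {A : Type} [CommRing A] [Nontrivial A] {deg : A → WithBot ℤ} (h : IsDeg deg)
    (h0 : ∀ x, x ≠ 0 → 0 ≤ deg x) (J : Ideal A) (hJ : C (GL (Fin 3) (A ⧸ J)))
    (hn : ∀ n : ℕ, ∃ k : ℕ, ∀ x ∈ J ^ k, deg x ≤ n → x = 0) : C (GL (Fin 3) A) := by
  have hdom := isDom h
  obtain ⟨d, hd, hda⟩ := frac_deg h
  obtain ⟨V, act, T, F, τ, hT, hS, hAc, hadj, hty, hfix⟩ :=
    Pool.Agent.Run7.h431.T3.t_BLD hd
  let ρ : GL (Fin 3) A →* GL (Fin 3) (FractionRing A) :=
    Matrix.GeneralLinearGroup.map (algebraMap A (FractionRing A))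
  let act' : MulAction (GL (Fin 3) A) V := MulAction.compHom V ρ
  have hsm : ∀ (g : GL (Fin 3) A) (x : V), g • x = ρ g • x := fun _ _ => rfl
  have hent : ∀ (g : GL (Fin 3) A) (i j : Fin 3),
      (ρ g : Matrix (Fin 3) (Fin 3) (FractionRing A)) i j =
        algebraMap A (FractionRing A) (g i j) := fun _ _ _ => rfl
  have hdet : ∀ g : GL (Fin 3) A,
      d (ρ g : Matrix (Fin 3) (Fin 3) (FractionRing A)).det = 0 := by
    intro g
    have h1 : (ρ g : Matrix (Fin 3) (Fin 3) (FractionRing A)).det =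
        algebraMap A (FractionRing A) (g : Matrix (Fin 3) (Fin 3) A).det := by
      have h2 : (ρ g : Matrix (Fin 3) (Fin 3) (FractionRing A)) =
        (algebraMap A (FractionRing A)).mapMatrix (g : Matrix (Fin 3) (Fin 3) A) := rfl
      rw [h2, RingHom.map_det]
    rw [h1, hda]
    have h3 : (g : Matrix (Fin 3) (Fin 3) A).det * ((g⁻¹ : GL (Fin 3) A) :
        Matrix (Fin 3) (Fin 3) A).det = 1 := by
      rw [← Matrix.det_mul, ← Units.val_mul, mul_inv_cancel, Units.val_one, Matrix.det_one]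
    have h4 : (g : Matrix (Fin 3) (Fin 3) A).det ≠ 0 := fun e => by
      rw [e, zero_mul] at h3
      exact zero_ne_one h3
    have h5 : ((g⁻¹ : GL (Fin 3) A) : Matrix (Fin 3) (Fin 3) A).det ≠ 0 := fun e => by
      rw [e, mul_zero] at h3
      exact zero_ne_one h3
    have h6 := h.mul (g : Matrix (Fin 3) (Fin 3) A).det
      ((g⁻¹ : GL (Fin 3) A) : Matrix (Fin 3) (Fin 3) A).det
    rw [h3, h.one] at h6
    have h7 := h0 _ h4
    have h8 := h0 _ h5
    refine le_antisymm ?_ h7
    rw [h6]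
    exact le_add_of_nonneg_right h8
  refine hM (GL (Fin 3) A) V T F τ hT hS ⟨fun g x y e => hAc.adj (ρ g) x y e,
    fun g φ e => hAc.face (ρ g) φ e⟩ (fun g x => hty (ρ g) (hdet g) x) hadj fun x => ?_
  obtain ⟨n, hnx⟩ := hfix x
  obtain ⟨k, hk⟩ := hn n
  refine ⟨_, _, Matrix.GeneralLinearGroup.map (Ideal.Quotient.mk (J ^ (k + 1))),
    Run7.h950.T3.pow_mem hC hsol J hJ k, fun g hg hg1 => ?_⟩
  have h2 : ∀ i j, deg (g i j) ≤ n := by
    intro i j
    have h3 := hnx (ρ g) (hdet g) hg i j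
    rw [hent, hda] at h3
    exact h3
  apply Units.ext
  ext i j
  rw [Units.val_one]
  have h3 : ((g : Matrix (Fin 3) (Fin 3) A) - 1) i j = 0 := by
    refine hk _ ?_ ?_
    · have h4 : Ideal.Quotient.mk (J ^ (k + 1)) (((g : Matrix (Fin 3) (Fin 3) A) - 1) i j) = 0 := by
        rw [Matrix.sub_apply, map_sub]
        have h5 := Run7.h950.T3.map_entry (Ideal.Quotient.mk (J ^ (k + 1))) g i j
        rw [hg1] at h5
        rw [← h5]
        have h2 : ((1 : GL (Fin 3) (A ⧸ J ^ (k + 1))) : Matrix (Fin 3) (Fin 3) _) i j =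
          Ideal.Quotient.mk (J ^ (k + 1)) ((1 : Matrix (Fin 3) (Fin 3) A) i j) := by
          rw [Units.val_one, Matrix.one_apply, Matrix.one_apply]
          split_ifs
          · rw [map_one]
          · rw [map_zero]
        rw [← h2]
        exact sub_self _
      exact Ideal.pow_le_pow_right (Nat.le_succ k) (Ideal.Quotient.eq_zero_iff_mem.1 h4)
    · rw [Matrix.sub_apply]
      refine (h.sub _ _).trans (max_le (h2 i j) ?_)
      rw [Matrix.one_apply]
      split_ifs
      · rw [h.one]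
        exact_mod_cast Nat.zero_le n
      · rw [(h.bot 0).2 rfl]
        exact bot_le
  rw [Matrix.sub_apply, sub_eq_zero] at h3
  exact h3

open Polynomial in
/-- **rings that embed in polynomial rings** -/
theorem emb_mem3 (hC : ClosedE C) (hsol : ∀ (S : Type) [Group S], Group.IsSolvable S → C S)
    (hM : Tri2 C) {A B A0 : Type} [CommRing A] [CommRing B] [IsDomain B] [CommRing A0]
    (φ : A →+* B[X]) (hφ : Function.Injective φ) (ψ : A →+* A0)
    (hψ : ∀ x, ψ x = 0 ↔ (φ x).coeff 0 = 0)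
    (hA0 : C (GL (Fin 3) A0)) : C (GL (Fin 3) A) := by
  have hnt : Nontrivial A := ⟨0, 1, fun e => by
    have h1 := congrArg φ e
    rw [map_zero, map_one] at h1
    exact zero_ne_one h1⟩
  refine ring_mem3 hC hsol hM (poly_isDeg φ hφ) ?_ (RingHom.ker ψ) ?_ ?_
  · intro x hx
    have h1 : φ x ≠ 0 := fun e => hx ((map_eq_zero_iff φ hφ).1 e)
    rw [Polynomial.degree_eq_natDegree h1]
    show (0 : WithBot ℤ) ≤ (((φ x).natDegree : ℤ) : WithBot ℤ)
    exact_mod_cast Nat.zero_le _
  · exact hC.base.of_injective _ _ (Matrix.GeneralLinearGroup.map (RingHom.kerLift ψ))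
      (Run7.h950.T3.map_inj _ (RingHom.kerLift_injective ψ)) hA0
  · intro n
    refine ⟨n + 1, fun x hx hd => ?_⟩
    have h1 : RingHom.ker ψ ≤ Ideal.comap φ (Ideal.span {X}) := by
      intro y hy
      rw [Ideal.mem_comap, Ideal.mem_span_singleton, Polynomial.X_dvd_iff]
      exact (hψ y).1 hy
    have h2 : φ x ∈ (Ideal.span {(X : B[X])}) ^ (n + 1) :=
      Ideal.le_comap_pow φ (n + 1) (Ideal.pow_right_mono h1 (n + 1) hx)
    rw [Ideal.span_singleton_pow, Ideal.mem_span_singleton] at h2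
    by_contra hx0
    have h3 : φ x ≠ 0 := fun e => hx0 ((map_eq_zero_iff φ hφ).1 e)
    have h4 := Polynomial.degree_le_of_dvd h2 h3
    rw [Polynomial.degree_X_pow] at h4
    rw [Polynomial.degree_eq_natDegree h3] at hd h4
    have h5 : (((φ x).natDegree : ℤ) : WithBot ℤ) ≤ (n : WithBot ℤ) := hd
    have h6 : (φ x).natDegree ≤ n := by exact_mod_cast h5
    have h7 : n + 1 ≤ (φ x).natDegree := by exact_mod_cast h4
    omega

open Polynomial in
/-- **FINAL, one variable** -/
theorem poly_mem3 (hC : ClosedE C) (hsol : ∀ (S : Type) [Group S], Group.IsSolvable S → C S)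
    (hM : Tri2 C) {B : Type} [CommRing B] [IsDomain B] (h : C (GL (Fin 3) B)) :
    C (GL (Fin 3) B[X]) :=
  emb_mem3 hC hsol hM (RingHom.id B[X]) Function.injective_id Polynomial.constantCoeff
    (fun x => by rw [Polynomial.constantCoeff_apply]; rfl) h

/-- **FINAL, polynomial rings in any set of variables** -/
theorem t_FINAL (hC : ClosedE C) (hsol : ∀ (S : Type) [Group S], Group.IsSolvable S → C S)
    (hM : Tri2 C) {B : Type} [CommRing B] [IsDomain B] (σ : Type) (h : C (GL (Fin 3) B)) :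
    C (GL (Fin 3) (MvPolynomial σ B)) := by
  refine emb_mem3 hC hsol hM (hmg B σ) ?_ MvPolynomial.constantCoeff ?_ h
  · intro p q e
    rw [← hmg_eval B σ p, ← hmg_eval B σ q, e]
  · intro p
    rw [hmg_coeff]
    exact (map_eq_zero_iff _ (MvPolynomial.C_injective σ B)).symm

end Run7.h579.T3
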